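import Pool.Agent.Lib.MP_ab8df0_nt.T.N15b
import Pool.Agent.Lib.MP_ab8df0_nt.T.B61a.Core
import Pool.Agent.Lib.MP_ab8df0_nt.T.B61b.Core
import Pool.Agent.Lib.MP_ab8df0_nt.T.B61c.Core
import Pool.Agent.Lib.MP_ab8df0_nt.P.N1

/-! The case of the first power of the unit. -/

namespace Pool.Agent.Lib.MP_ab8df0_nt.T.B61

open B C P N15b

theorem bb' {K : Type} [Field K] [NumberField K] {a : K} {pl : List (Place K)}
    {ph : List (K →+* ℝ)}
    {w : List (IsDedekindDomain.HeightOneSpectrum (NumberField.RingOfIntegers K))}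
    (hP : Pack K FDN1 a pl ph w) : BB61 := by
  intro x y z hz h hf
  have r1 := B61a.relT hP
  have ht : cval a B61a.vs 4 ^ 3 = 2 := by linear_combination B61a.relC hP
  have e1 : cval a B61b.vs 11 = cval a B61a.vs 4 := by
    linear_combination (1 / 2) * (B61b.relT hP - r1)
  have e2 : cval a B61c.vs 11 = cval a B61a.vs 4 := by
    linear_combination (1 / 2) * (B61c.relT hP - r1)
  have hb : 4 * (a ^ 3 / 2) ^ 5 = e3 (cval a B61a.vs 4) eps2 ^ 3 := by
    generalize cval a B61a.vs 4 = T at r1 ht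
    have h5 : a ^ 5 = 2 * (T - 1) := by linear_combination -r1
    have h3 : e3 T eps2 = T - 1 := by
      simp only [e3, eps2]
      push_cast
      ring
    rw [h3, show 4 * (a ^ 3 / 2) ^ 5 = (a ^ 5) ^ 3 / 8 by ring, h5]
    ring
  obtain ⟨t, g, X, h0, hd, h1, hg0, hg, hX⟩ := setup ht hb hz h hf
  by_contra hn
  obtain ⟨n1, n2⟩ := not_or.1 hn
  refine B61a.core hP t g X hd hg hX (delta_even hg0 hX) (fun _ _ φ _ => delta_pos hg0 hX φ)
    (fun hs => ?_) fun hs => ?_
  · rw [← e1] at h1 hg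
    have hs' : IsSquare ((X - 1) * cval a B61b.vs 33) := hs
    have hq : (5 : K) * t - (-4) ≠ 0 := by
      simpa using ne_of (p := -4) (q := 5) h0 (by simpa using n2)
    exact lev2 h1 hg0 hg hX hs' (B61b.relA hP) (B61b.relB hP) (B61b.relL hP) (B61b.relG hP)
      (B61b.relX hP) (B61b.relU hP) (B61b.relx hP) hq
      fun u x y dG dX du dx => B61b.core hP t g X u x y dG dX du dx hd hg hX hs'
  · rw [← e2] at h1 hg
    have hs' : IsSquare ((X - 1) * cval a B61c.vs 33) := hs
    have hq : (1 : K) * t - (-1) ≠ 0 := by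
      simpa using ne_of (p := -1) (q := 1) h0 (by simpa using n1)
    exact lev2 h1 hg0 hg hX hs' (B61c.relA hP) (B61c.relB hP) (B61c.relL hP) (B61c.relG hP)
      (B61c.relX hP) (B61c.relU hP) (B61c.relx hP) hq
      fun u x y dG dX du dx => B61c.core hP t g X u x y dG dX du dx hd hg hX hs'

theorem bb : BB61 := by
  obtain ⟨_, _, _, hP⟩ := P.N1.pack
  exact bb' hP

end Pool.Agent.Lib.MP_ab8df0_nt.T.B61
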